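import Pool.Agent.Helper26.TK.Space

/-!
Packet G of MP_c88f67_an: the Banach space defined by a norming set.
-/

namespace Pool.Agent.Helper50.TK

open Set Filter Topology Pool.Agent.Helper26.TK
open scoped ENNReal lp

section
variable {Φ : Set (Node →₀ ℝ)} (hΦ : Good Φ)

/-- The ambient space. -/
abbrev EE (Φ : Set (Node →₀ ℝ)) : Type := lp (fun _ : Φ => ℝ) ∞

/-- The vector of a node. -/
noncomputable def vec (hΦ : Good Φ) (t : Node) : EE Φ :=
  ⟨fun φ => φ.1 t, memℓp_infty ⟨1, by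
    rintro _ ⟨φ, rfl⟩
    show ‖φ.1 t‖ ≤ 1
    rw [Real.norm_eq_abs]
    exact hΦ.le_one φ.1 φ.2 t⟩⟩

theorem vec_apply (t : Node) (φ : Φ) : (vec hΦ t : ∀ _ : Φ, ℝ) φ = φ.1 t := rfl

/-- Evaluation. -/
noncomputable def ev (φ : Φ) : EE Φ →L[ℝ] ℝ :=
  LinearMap.mkContinuous
    { toFun := fun v => (v : ∀ _ : Φ, ℝ) φ
      map_add' := fun _ _ => rfl
      map_smul' := fun _ _ => rfl } 1 (fun v => by
        rw [one_mul]
        exact lp.norm_apply_le_norm (by simp) v φ)

theorem ev_apply (φ : Φ) (v : EE Φ) : ev φ v = (v : ∀ _ : Φ, ℝ) φ := rfl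

theorem abs_ev_le (φ : Φ) (v : EE Φ) : |ev φ v| ≤ ‖v‖ := by
  rw [← Real.norm_eq_abs, ev_apply]
  exact lp.norm_apply_le_norm (by simp) v φ

theorem ev_vec (φ : Φ) (t : Node) : ev φ (vec hΦ t) = φ.1 t := rfl

/-- The unit functional of a node. -/
noncomputable def un (hΦ : Good Φ) (t : Node) : Φ := ⟨Finsupp.single t 1, hΦ.single t⟩

theorem ev_un_vec (s t : Node) : ev (un hΦ s) (vec hΦ t) = if s = t then 1 else 0 := by
  rw [ev_vec]
  show Finsupp.single s (1 : ℝ) t = _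
  rw [Finsupp.single_apply]

/-- The space. -/
noncomputable def SS (hΦ : Good Φ) : Submodule ℝ (EE Φ) :=
  (Submodule.span ℝ (range (vec hΦ))).topologicalClosure

theorem vec_mem (t : Node) : vec hΦ t ∈ SS hΦ :=
  Submodule.le_topologicalClosure _ (Submodule.subset_span ⟨t, rfl⟩)

theorem key (φ : Φ) (v : EE Φ) (hv : v ∈ SS hΦ) :
    ev φ v = ∑ t ∈ φ.1.support, φ.1 t * ev (un hΦ t) v := by
  classical
  let L : EE Φ →L[ℝ] ℝ := ev φ - ∑ t ∈ φ.1.support, φ.1 t • ev (un hΦ t)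
  have hL : ∀ w, L w = ev φ w - ∑ t ∈ φ.1.support, φ.1 t * ev (un hΦ t) w := by
    intro w
    simp [L]
  have h1 : SS hΦ ≤ LinearMap.ker (L : EE Φ →ₗ[ℝ] ℝ) := by
    refine Submodule.topologicalClosure_minimal _ ?_ ?_
    · rw [Submodule.span_le]
      rintro _ ⟨s, rfl⟩
      rw [SetLike.mem_coe, LinearMap.mem_ker]
      show L (vec hΦ s) = 0
      rw [hL, ev_vec]
      have h2 : ∀ t ∈ φ.1.support, φ.1 t * ev (un hΦ t) (vec hΦ s) =
          if t = s then φ.1 t else 0 := by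
        intro t _
        rw [ev_un_vec]
        split_ifs <;> simp
      rw [Finset.sum_congr rfl h2, Finset.sum_ite_eq' φ.1.support s]
      by_cases hs : s ∈ φ.1.support
      · rw [if_pos hs, sub_self]
      · rw [if_neg hs, Finsupp.notMem_support_iff.1 hs, sub_self]
    · exact L.isClosed_ker
  have h2 := h1 hv
  rw [LinearMap.mem_ker] at h2
  have h3 : L v = 0 := h2
  rw [hL] at h3
  linarith

theorem norm_le' (v : EE Φ) (r : ℝ) (hr : 0 ≤ r) (h : ∀ φ : Φ, |ev φ v| ≤ r) : ‖v‖ ≤ r := by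
  refine lp.norm_le_of_forall_le hr (fun φ => ?_)
  rw [Real.norm_eq_abs]
  exact h φ

theorem small (v : EE Φ) (hv : v ∈ SS hΦ) (S : Finset Node) :
    ‖∑ t ∈ S, ev (un hΦ t) v • vec hΦ t‖ ≤ ‖v‖ := by
  classical
  refine norm_le' _ _ (norm_nonneg _) (fun φ => ?_)
  have hχ : φ.1.filter (fun t => t ∈ S) ∈ Φ := by
    refine hΦ.dom φ.1 φ.2 _ (fun t => ?_)
    by_cases ht : t ∈ S
    · right
      rw [Finsupp.filter_apply_pos _ _ ht]
    · left
      rw [Finsupp.filter_apply_neg _ _ ht]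
  have h1 := key hΦ ⟨_, hχ⟩ v hv
  have h2 : ev φ (∑ t ∈ S, ev (un hΦ t) v • vec hΦ t) = ev (⟨_, hχ⟩ : Φ) v := by
    rw [h1, map_sum]
    simp only [Finsupp.support_filter]
    rw [Finset.sum_filter]
    have h3 : ∀ t ∈ S, ev φ (ev (un hΦ t) v • vec hΦ t) =
        if t ∈ φ.1.support then φ.1 t * ev (un hΦ t) v else 0 := by
      intro t _
      rw [map_smul, ev_vec, smul_eq_mul, mul_comm]
      split_ifs with ht
      · rfl
      · rw [Finsupp.notMem_support_iff.1 ht, zero_mul]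
    rw [Finset.sum_congr rfl h3, ← Finset.sum_filter, ← Finset.sum_filter]
    have h4 : S.filter (fun t => t ∈ φ.1.support) = φ.1.support.filter (fun t => t ∈ S) := by
      ext t
      simp only [Finset.mem_filter]
      tauto
    rw [h4]
    refine Finset.sum_congr rfl (fun t ht => ?_)
    rw [Finsupp.filter_apply_pos _ _ (Finset.mem_filter.1 ht).2]
  rw [h2]
  exact abs_ev_le _ v

/-- The structure. -/
noncomputable def ns : NS Φ (SS hΦ) where
  e := fun t => ⟨vec hΦ t, vec_mem hΦ t⟩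
  co := fun t => (ev (un hΦ t)).comp (SS hΦ).subtypeL
  co_e := fun s t => ev_un_vec hΦ s t
  le_norm := fun φ hφ v => by
    have h := key hΦ ⟨φ, hφ⟩ v.1 v.2
    have h1 := abs_ev_le (⟨φ, hφ⟩ : Φ) v.1
    rw [h] at h1
    exact h1
  norm_le := fun v r hr h => by
    refine norm_le' v.1 r hr (fun φ => ?_)
    rw [key hΦ φ v.1 v.2]
    exact h φ.1 φ.2
  dense := fun v ε hε => by
    classical
    have hv : v.1 ∈ closure (Submodule.span ℝ (range (vec hΦ)) : Set (EE Φ)) := v.2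
    obtain ⟨u, hu, hd⟩ := Metric.mem_closure_iff.1 hv (ε / 2) (half_pos hε)
    rw [dist_eq_norm] at hd
    rw [SetLike.mem_coe, Finsupp.mem_span_range_iff_exists_finsupp] at hu
    obtain ⟨c, hc⟩ := hu
    have huS : u ∈ SS hΦ := by
      rw [← hc]
      exact Submodule.sum_mem _ (fun t _ => Submodule.smul_mem _ _ (vec_mem hΦ t))
    have hcu : ∀ t, ev (un hΦ t) u = c t := by
      intro t
      rw [← hc, Finsupp.sum, map_sum]
      have h3 : ∀ s ∈ c.support, ev (un hΦ t) (c s • vec hΦ s) = if t = s then c s else 0 := by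
        intro s _
        rw [map_smul, ev_un_vec, smul_eq_mul]
        split_ifs <;> simp
      rw [Finset.sum_congr rfl h3, Finset.sum_ite_eq]
      split_ifs with ht
      · rfl
      · exact (Finsupp.notMem_support_iff.1 ht).symm
    refine ⟨c.support, ?_⟩
    have h1 : u = ∑ t ∈ c.support, ev (un hΦ t) u • vec hΦ t := by
      conv_lhs => rw [← hc]
      rw [Finsupp.sum]
      exact Finset.sum_congr rfl (fun t _ => by rw [hcu])
    have h2 : v.1 - ∑ t ∈ c.support, ev (un hΦ t) v.1 • vec hΦ t =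
        (v.1 - u) - ∑ t ∈ c.support, ev (un hΦ t) (v.1 - u) • vec hΦ t := by
      have h3 : ∑ t ∈ c.support, ev (un hΦ t) (v.1 - u) • vec hΦ t =
          ∑ t ∈ c.support, ev (un hΦ t) v.1 • vec hΦ t -
            ∑ t ∈ c.support, ev (un hΦ t) u • vec hΦ t := by
        rw [← Finset.sum_sub_distrib]
        refine Finset.sum_congr rfl (fun t _ => ?_)
        rw [map_sub, sub_smul]
      rw [h3, ← h1]
      abel
    have h3 : ‖v.1 - ∑ t ∈ c.support, ev (un hΦ t) v.1 • vec hΦ t‖ ≤ ε := by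
      rw [h2]
      have h4 := small hΦ (v.1 - u) (Submodule.sub_mem _ v.2 huS) c.support
      have h5 := norm_sub_le (v.1 - u)
        (∑ t ∈ c.support, ev (un hΦ t) (v.1 - u) • vec hΦ t)
      linarith
    have h4 : ((v - ∑ t ∈ c.support, ((ev (un hΦ t)).comp (SS hΦ).subtypeL) v •
        (⟨vec hΦ t, vec_mem hΦ t⟩ : SS hΦ) : SS hΦ) : EE Φ) =
          v.1 - ∑ t ∈ c.support, ev (un hΦ t) v.1 • vec hΦ t := by
      push_cast
      rfl
    have h5 : ∀ w : SS hΦ, ‖w‖ = ‖(w : EE Φ)‖ := fun _ => rfl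
    exact le_of_eq_of_le ((h5 _).trans (congrArg norm h4)) h3

end

theorem stmtG : StmtG := by
  intro Φ hΦ
  refine ⟨SS hΦ, inferInstance, inferInstance, ?_, ?_, ⟨ns hΦ⟩⟩
  · exact (Submodule.isClosed_topologicalClosure _).completeSpace_coe
  · have h1 : TopologicalSpace.IsSeparable (Submodule.span ℝ (range (vec hΦ)) : Set (EE Φ)) :=
      (countable_range (vec hΦ)).isSeparable.span
    have h2 : TopologicalSpace.IsSeparable (SS hΦ : Set (EE Φ)) := h1.closure
    exact h2.separableSpace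

end Pool.Agent.Helper50.TK
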