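import Pool.Agent.Helper26.TK.Stmts

/-!
Packet Q of MP_c88f67_an: small averages on well-founded families of finite sequences.
-/

namespace Pool.Agent.Helper50.TK

open Set Filter Topology

/-- A convex combination on a finite set of indices `≥ i0`. -/
structure Conv (s : Finset ℕ) (lam : ℕ → ℝ) (i0 : ℕ) : Prop where
  ge : ∀ i ∈ s, i0 ≤ i
  nonneg : ∀ i, 0 ≤ lam i
  off : ∀ i, i ∉ s → lam i = 0
  sum : ∑ i ∈ s, lam i = 1

/-- The interval `i` is hit by a term with index in `[l, k)`. -/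
def Hit (r : ℕ → ℕ) (l k : ℕ) (b : ℕ → ℕ) (i : ℕ) : Prop :=
  ∃ j, l ≤ j ∧ j < k ∧ r i ≤ b j ∧ b j < r (i + 1)

open Classical in
/-- The mass of the intervals with `P`. -/
noncomputable def mass (s : Finset ℕ) (lam : ℕ → ℝ) (P : ℕ → Prop) : ℝ :=
  ∑ i ∈ s.filter P, lam i

theorem Conv.mass_le_one {s : Finset ℕ} {lam : ℕ → ℝ} {i0 : ℕ} (h : Conv s lam i0)
    (P : ℕ → Prop) : mass s lam P ≤ 1 := by
  classical
  rw [← h.sum]
  exact Finset.sum_le_sum_of_subset_of_nonneg (Finset.filter_subset _ _)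
    (fun i _ _ => h.nonneg i)

theorem mass_nonneg {s : Finset ℕ} {lam : ℕ → ℝ} (h : ∀ i, 0 ≤ lam i)
    (P : ℕ → Prop) : 0 ≤ mass s lam P :=
  Finset.sum_nonneg (fun i _ => h i)

theorem mass_zero {s : Finset ℕ} {lam : ℕ → ℝ} {P : ℕ → Prop} (h : ∀ i ∈ s, ¬ P i) :
    mass s lam P = 0 := by
  classical
  unfold mass
  rw [Finset.filter_false_of_mem h]
  simp

theorem mass_congr {s : Finset ℕ} {lam : ℕ → ℝ} {P Q : ℕ → Prop} (h : ∀ i ∈ s, (P i ↔ Q i)) :
    mass s lam P = mass s lam Q := by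
  classical
  unfold mass
  rw [Finset.filter_congr h]

/-- Convex combinations of convex combinations. -/
theorem comb {J : Finset ℕ} {κ : ℕ → ℝ} {j0 : ℕ} (hκ : Conv J κ j0) {S : ℕ → Finset ℕ}
    {lam : ℕ → ℕ → ℝ} {t : ℕ → ℕ} {i0 : ℕ} (h : ∀ j, Conv (S j) (lam j) (t j))
    (ht : ∀ j, i0 ≤ t j) :
    ∃ (s : Finset ℕ) (Λ : ℕ → ℝ), Conv s Λ i0 ∧
      ∀ P : ℕ → Prop, mass s Λ P = ∑ j ∈ J, κ j * mass (S j) (lam j) P := by
  classical
  have key : ∀ P : ℕ → Prop, mass (J.biUnion S) (fun i => ∑ j ∈ J, κ j * lam j i) P =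
      ∑ j ∈ J, κ j * mass (S j) (lam j) P := by
    intro P
    unfold mass
    rw [Finset.sum_comm]
    refine Finset.sum_congr rfl (fun j hj => ?_)
    rw [← Finset.mul_sum]
    congr 1
    symm
    refine Finset.sum_subset ?_ ?_
    · intro i hi
      rw [Finset.mem_filter] at hi ⊢
      exact ⟨Finset.mem_biUnion.2 ⟨j, hj, hi.1⟩, hi.2⟩
    · intro i hi hi'
      rw [Finset.mem_filter] at hi hi'
      exact (h j).off i (fun h1 => hi' ⟨h1, hi.2⟩)
  refine ⟨J.biUnion S, fun i => ∑ j ∈ J, κ j * lam j i, ⟨?_, ?_, ?_, ?_⟩, key⟩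
  · intro i hi
    obtain ⟨j, -, hj⟩ := Finset.mem_biUnion.1 hi
    exact (ht j).trans ((h j).ge i hj)
  · intro i
    exact Finset.sum_nonneg (fun j _ => mul_nonneg (hκ.nonneg j) ((h j).nonneg i))
  · intro i hi
    refine Finset.sum_eq_zero (fun j hj => ?_)
    rw [(h j).off i (fun h1 => hi (Finset.mem_biUnion.2 ⟨j, hj, h1⟩)), mul_zero]
  · have h1 := key (fun _ => True)
    unfold mass at h1
    simp only [Finset.filter_true] at h1
    rw [h1]
    have h2 : ∀ j ∈ J, κ j * ∑ i ∈ S j, lam j i = κ j := by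
      intro j _
      rw [(h j).sum, mul_one]
    rw [Finset.sum_congr rfl h2]
    exact hκ.sum

/-- Starting points of successive blocks. -/
theorem starts (S : ℕ → Finset ℕ) (hS : ∀ t, ∀ i ∈ S t, t ≤ i) (i0 : ℕ) :
    ∃ st : ℕ → ℕ, StrictMono st ∧ st 0 = i0 ∧ ∀ j, ∀ i ∈ S (st j), st j ≤ i ∧ i + 1 ≤ st (j + 1) := by
  let st : ℕ → ℕ := fun j => Nat.rec i0 (fun _ t => max (t + 1) ((S t).sup id + 1)) j
  have h1 : ∀ j, st (j + 1) = max (st j + 1) ((S (st j)).sup id + 1) := fun j => rfl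
  refine ⟨st, strictMono_nat_of_lt_succ (fun j => ?_), rfl, fun j i hi => ⟨hS _ i hi, ?_⟩⟩
  · rw [h1]
    exact lt_of_lt_of_le (Nat.lt_succ_self _) (le_max_left _ _)
  · rw [h1]
    refine le_trans ?_ (le_max_right _ _)
    have : i ≤ (S (st j)).sup id := Finset.le_sup (f := id) hi
    omega

section
variable (A : ℕ → (ℕ → ℕ) → Prop)

/-- The estimate for the sequences that extend `v` restricted to `l`. -/
def Est (r : ℕ → ℕ) (η : ℝ) (s : Finset ℕ) (lam : ℕ → ℝ) (l : ℕ) (v : ℕ → ℕ) : Prop :=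
  ∀ (k : ℕ) (b : ℕ → ℕ), StrictMono b → A k b → l ≤ k → (∀ i < l, b i = v i) →
    mass s lam (Hit r l k b) ≤ η

/-- Good finite sequences. -/
def GoodSeq (l : ℕ) (v : ℕ → ℕ) : Prop :=
  ∀ r : ℕ → ℕ, StrictMono r → ∀ η : ℝ, 0 < η → ∀ i0 : ℕ, ∃ (s : Finset ℕ) (lam : ℕ → ℝ),
    Conv s lam i0 ∧ Est A r η s lam l v

theorem conv_single (i0 : ℕ) : Conv {i0} (fun i => if i = i0 then 1 else 0) i0 where
  ge := fun i hi => by
    rw [Finset.mem_singleton] at hi
    omega
  nonneg := fun i => by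
    split_ifs <;> norm_num
  off := fun i hi => by
    rw [Finset.mem_singleton] at hi
    rw [if_neg hi]
  sum := by simp

/-- A sequence that is not good is an initial segment of an admissible sequence. -/
theorem exists_of_not_good {l : ℕ} {v : ℕ → ℕ} (h : ¬ GoodSeq A l v) :
    ∃ (k : ℕ) (b : ℕ → ℕ), StrictMono b ∧ A k b ∧ l ≤ k ∧ ∀ i < l, b i = v i := by
  by_contra hcon
  apply h
  intro r _ η _ i0
  refine ⟨_, _, conv_single i0, ?_⟩
  intro k b hb hA hl hv
  exact absurd ⟨k, b, hb, hA, hl, hv⟩ hcon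

theorem GoodSeq.congr {l : ℕ} {v v' : ℕ → ℕ} (h : GoodSeq A l v) (hv : ∀ i < l, v i = v' i) :
    GoodSeq A l v' := by
  intro r hr η hη i0
  obtain ⟨s, lam, h1, h2⟩ := h r hr η hη i0
  refine ⟨s, lam, h1, ?_⟩
  intro k b hb hA hl hb'
  exact h2 k b hb hA hl (fun i hi => (hb' i hi).trans (hv i hi).symm)

/-- Finitely many good sequences at once. -/
theorem sim {l : ℕ} (W : ℕ → ℕ → ℕ) (hW : ∀ n, GoodSeq A l (W n)) (N : ℕ) :
    ∀ r : ℕ → ℕ, StrictMono r → ∀ η : ℝ, 0 < η → ∀ i0 : ℕ, ∃ (s : Finset ℕ) (lam : ℕ → ℝ),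
      Conv s lam i0 ∧ ∀ n < N, Est A r η s lam l (W n) := by
  classical
  induction N with
  | zero =>
    intro r _ η _ i0
    exact ⟨_, _, conv_single i0, fun n hn => absurd hn (Nat.not_lt_zero _)⟩
  | succ N ih =>
    intro r hr η hη i0
    choose S lam hS hE using ih r hr η hη
    obtain ⟨st, hst, hst0, hst1⟩ := starts S (fun t => (hS t).ge) i0
    have hr' : StrictMono (fun j => r (st j)) := hr.comp hst
    obtain ⟨J, κ, hJ, hK⟩ := hW N (fun j => r (st j)) hr' η hη 0
    have hst2 : ∀ j, i0 ≤ st j := by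
      intro j
      rw [← hst0]
      exact hst.monotone (Nat.zero_le _)
    obtain ⟨s, Λ, hs, hm⟩ := comb hJ (S := fun j => S (st j)) (lam := fun j => lam (st j))
      (t := st) (i0 := i0) (fun j => hS (st j)) hst2
    refine ⟨s, Λ, hs, ?_⟩
    intro n hn k b hb hA hl hv
    rw [hm]
    rcases Nat.lt_succ_iff_lt_or_eq.1 hn with hn | rfl
    · calc ∑ j ∈ J, κ j * mass (S (st j)) (lam (st j)) (Hit r l k b)
          ≤ ∑ j ∈ J, κ j * η := Finset.sum_le_sum (fun j _ =>
            mul_le_mul_of_nonneg_left (hE (st j) n hn k b hb hA hl hv) (hJ.nonneg j))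
        _ = η := by rw [← Finset.sum_mul, hJ.sum, one_mul]
    · have h1 := hK k b hb hA hl hv
      refine le_trans ?_ h1
      have h2 : mass J κ (Hit (fun j => r (st j)) l k b) =
          ∑ j ∈ J, if Hit (fun j => r (st j)) l k b j then κ j else 0 := by
        unfold mass
        rw [Finset.sum_filter]
      rw [h2]
      refine Finset.sum_le_sum (fun j _ => ?_)
      split_ifs with hh
      · exact mul_le_of_le_one_right (hJ.nonneg j) ((hS (st j)).mass_le_one _)
      · rw [mass_zero, mul_zero]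
        rintro i hi ⟨j', h3, h4, h5, h6⟩
        obtain ⟨h7, h8⟩ := hst1 j i hi
        exact hh ⟨j', h3, h4, (hr.monotone h7).trans h5, h6.trans_le (hr.monotone h8)⟩

/-- A sequence is good when all its one-term extensions are good. -/
theorem good_step {l : ℕ} {v : ℕ → ℕ} (h : ∀ n, GoodSeq A (l + 1) (Function.update v l n)) :
    GoodSeq A l v := by
  classical
  intro r hr η hη i0
  have h0 := fun t : ℕ => sim A (fun n => Function.update v l n) h (r t) r hr (η / 2)
    (half_pos hη) t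
  choose S lam hS hE using h0
  obtain ⟨st, hst, hst0, hst1⟩ := starts S (fun t => (hS t).ge) i0
  have hst2 : ∀ j, i0 ≤ st j := by
    intro j
    rw [← hst0]
    exact hst.monotone (Nat.zero_le _)
  obtain ⟨N, hN⟩ := exists_nat_gt (2 / η)
  have hNpos : (0 : ℝ) < N := (div_pos two_pos hη).trans hN
  have hN0 : 0 < N := by exact_mod_cast hNpos
  have hJ : Conv (Finset.range N) (fun j => if j < N then (1 / N : ℝ) else 0) 0 := by
    refine ⟨fun i _ => Nat.zero_le _, fun i => ?_, fun i hi => ?_, ?_⟩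
    · split_ifs
      · positivity
      · exact le_refl _
    · rw [Finset.mem_range] at hi
      rw [if_neg hi]
    · rw [Finset.sum_congr rfl (fun j hj => if_pos (Finset.mem_range.1 hj))]
      rw [Finset.sum_const, Finset.card_range, nsmul_eq_mul]
      field_simp
  obtain ⟨s, Λ, hs, hm⟩ := comb hJ (S := fun j => S (st j)) (lam := fun j => lam (st j))
    (t := st) (i0 := i0) (fun j => hS (st j)) hst2
  refine ⟨s, Λ, hs, ?_⟩
  intro k b hb hA hl hv
  rcases Nat.eq_or_lt_of_le hl with rfl | hlk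
  · rw [mass_zero]
    · exact hη.le
    · rintro i _ ⟨j, h1, h2, -, -⟩
      omega
  rw [hm]
  have h1 : ∀ j ∈ Finset.range N, (if j < N then (1 / N : ℝ) else 0) *
      mass (S (st j)) (lam (st j)) (Hit r l k b) ≤
        (1 / N : ℝ) * (η / 2 + if r (st j) ≤ b l ∧ b l < r (st (j + 1)) then 1 else 0) := by
    intro j hj
    rw [if_pos (Finset.mem_range.1 hj)]
    refine mul_le_mul_of_nonneg_left ?_ (by positivity)
    by_cases hA1 : r (st (j + 1)) ≤ b l
    · rw [mass_zero]
      · have : (0 : ℝ) ≤ if r (st j) ≤ b l ∧ b l < r (st (j + 1)) then (1 : ℝ) else 0 := by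
          split_ifs <;> norm_num
        have := half_pos hη
        linarith
      · rintro i hi ⟨j', h3, h4, h5, h6⟩
        obtain ⟨h7, h8⟩ := hst1 j i hi
        have h9 : b j' < r (st (j + 1)) := h6.trans_le (hr.monotone h8)
        have h10 : b l ≤ b j' := hb.monotone h3
        omega
    · push Not at hA1
      by_cases hA2 : b l < r (st j)
      · have h2 : mass (S (st j)) (lam (st j)) (Hit r l k b) =
            mass (S (st j)) (lam (st j)) (Hit r (l + 1) k b) := by
          refine mass_congr (fun i hi => ⟨?_, ?_⟩)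
          · rintro ⟨j', h3, h4, h5, h6⟩
            obtain ⟨h7, h8⟩ := hst1 j i hi
            rcases Nat.eq_or_lt_of_le h3 with rfl | h9
            · have := hr.monotone h7
              omega
            · exact ⟨j', h9, h4, h5, h6⟩
          · rintro ⟨j', h3, h4, h5, h6⟩
            exact ⟨j', (Nat.le_succ l).trans h3, h4, h5, h6⟩
        rw [h2]
        have h3 := hE (st j) (b l) hA2 k b hb hA hlk (by
          intro i hi
          rcases Nat.lt_succ_iff_lt_or_eq.1 hi with h4 | rfl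
          · rw [Function.update_of_ne (by omega)]
            exact hv i h4
          · rw [Function.update_self])
        have h4 : (0 : ℝ) ≤ if r (st j) ≤ b l ∧ b l < r (st (j + 1)) then (1 : ℝ) else 0 := by
          split_ifs <;> norm_num
        linarith
      · push Not at hA2
        rw [if_pos ⟨hA2, hA1⟩]
        have h3 := (hS (st j)).mass_le_one (Hit r l k b)
        have := half_pos hη
        linarith
  refine (Finset.sum_le_sum h1).trans ?_
  rw [← Finset.mul_sum, Finset.sum_add_distrib, Finset.sum_const, Finset.card_range,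
    nsmul_eq_mul, ← Finset.sum_filter, Finset.sum_const, nsmul_eq_mul, mul_one]
  have hcard : ((Finset.range N).filter
      (fun j => r (st j) ≤ b l ∧ b l < r (st (j + 1)))).card ≤ 1 := by
    rw [Finset.card_le_one]
    have haux : ∀ j j' : ℕ, j < j' → b l < r (st (j + 1)) → r (st j') ≤ b l → False := by
      intro j j' hjj h2 h3
      have h4 : r (st (j + 1)) ≤ r (st j') := hr.monotone (hst.monotone hjj)
      omega
    intro j hj j' hj'
    rw [Finset.mem_filter] at hj hj'
    rcases lt_trichotomy j j' with h2 | h2 | h2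
    · exact absurd (haux j j' h2 hj.2.2 hj'.2.1) id
    · exact h2
    · exact absurd (haux j' j h2 hj'.2.2 hj.2.1) id
  have hcard' : (((Finset.range N).filter
      (fun j => r (st j) ≤ b l ∧ b l < r (st (j + 1)))).card : ℝ) ≤ 1 := by
    exact_mod_cast hcard
  have h2 : (1 / N : ℝ) ≤ η / 2 := by
    rw [div_lt_iff₀ hη] at hN
    rw [div_le_div_iff₀ hNpos two_pos]
    linarith
  calc (1 / N : ℝ) * (N * (η / 2) + (((Finset.range N).filter
      (fun j => r (st j) ≤ b l ∧ b l < r (st (j + 1)))).card : ℝ))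
      ≤ (1 / N : ℝ) * (N * (η / 2) + 1) :=
        mul_le_mul_of_nonneg_left (by linarith) (by positivity)
    _ = η / 2 + 1 / N := by
      field_simp
    _ ≤ η := by linarith

/-- The empty sequence is good. -/
theorem good_zero (hcongr : ∀ (k : ℕ) (a b : ℕ → ℕ), (∀ i < k, a i = b i) → A k a → A k b)
    (hinit : ∀ (k : ℕ) (a : ℕ → ℕ), A (k + 1) a → A k a)
    (hno : ¬ ∃ a : ℕ → ℕ, StrictMono a ∧ ∀ k, A k a) : GoodSeq A 0 (fun _ => 0) := by
  by_contra hcon
  have hstep : ∀ l v, ¬ GoodSeq A l v → ∃ n, ¬ GoodSeq A (l + 1) (Function.update v l n) := by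
    intro l v h
    by_contra h1
    push Not at h1
    exact h (good_step A h1)
  choose n hn using hstep
  let seq : ∀ l : ℕ, {v : ℕ → ℕ // ¬ GoodSeq A l v} := fun l =>
    Nat.rec ⟨fun _ => 0, hcon⟩ (fun l x => ⟨Function.update x.1 l (n l x.1 x.2),
      hn l x.1 x.2⟩) l
  have hseq : ∀ l, (seq (l + 1)).1 = Function.update (seq l).1 l (n l (seq l).1 (seq l).2) :=
    fun l => rfl
  have hstab : ∀ i m, (seq (i + 1 + m)).1 i = (seq (i + 1)).1 i := by
    intro i m
    induction m with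
    | zero => rfl
    | succ m ih =>
      rw [← Nat.add_assoc, hseq, Function.update_of_ne (by omega)]
      exact ih
  let a : ℕ → ℕ := fun i => (seq (i + 1)).1 i
  have ha : ∀ l, ∀ i < l, (seq l).1 i = a i := by
    intro l i hi
    obtain ⟨m, rfl⟩ := Nat.exists_eq_add_of_le (Nat.succ_le_of_lt hi)
    exact hstab i m
  have hbad : ∀ l, ¬ GoodSeq A l a := by
    intro l h
    exact (seq l).2 (h.congr A (fun i hi => (ha l i hi).symm))
  apply hno
  refine ⟨a, strictMono_nat_of_lt_succ (fun i => ?_), fun k => ?_⟩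
  · obtain ⟨k, b, hb, -, -, hv⟩ := exists_of_not_good A (hbad (i + 2))
    rw [← hv i (by omega), ← hv (i + 1) (by omega)]
    exact hb (Nat.lt_succ_self i)
  · obtain ⟨k', b, -, hA, hk, hv⟩ := exists_of_not_good A (hbad k)
    have hdown : ∀ m, A (k + m) b → A k b := by
      intro m
      induction m with
      | zero => exact id
      | succ m ih => exact fun h => ih (hinit _ _ h)
    obtain ⟨m, rfl⟩ := Nat.exists_eq_add_of_le hk
    exact hcongr k b a (fun i hi => hv i hi) (hdown m hA)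

end

open Pool.Agent.Helper26.TK in
theorem stmtQ : StmtQ := by
  intro A hcongr hinit hno r hr η hη i0
  obtain ⟨s, lam, hs, h⟩ := good_zero A hcongr hinit hno r hr η hη i0
  refine ⟨s, lam, hs.ge, hs.nonneg, hs.off, hs.sum, ?_⟩
  intro k a ha hA
  have h1 := h k a ha hA (Nat.zero_le _) (fun i hi => absurd hi (Nat.not_lt_zero _))
  have h2 : mass s lam (Hit r 0 k a) =
      mass s lam (fun i => ∃ j < k, r i ≤ a j ∧ a j < r (i + 1)) := by
    refine mass_congr (fun i _ => ⟨?_, ?_⟩)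
    · rintro ⟨j, -, h3, h4, h5⟩
      exact ⟨j, h3, h4, h5⟩
    · rintro ⟨j, h3, h4, h5⟩
      exact ⟨j, Nat.zero_le _, h3, h4, h5⟩
  rw [h2] at h1
  unfold mass at h1
  refine le_of_eq_of_le (Finset.sum_congr ?_ (fun _ _ => rfl)) h1
  ext i
  simp only [Finset.mem_filter]

end Pool.Agent.Helper50.TK
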